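import Pool.Agent.H683.SC.AR2
import Pool.Agent.H234.SC_AR

/-! The number of labels times its logarithm is `O(m)`. -/

set_option autoImplicit false

namespace Pool.Agent.H612.SCAR2

open Pool.Agent.H683.SC

theorem mul_log (m N : ℕ) (hN : N ≤ 52 * (m / Nat.log 2 m + 1)) :
    N * Nat.log 2 N ≤ 728 * (m + 1) := by
  obtain ⟨L, hL⟩ : ∃ L, L = Nat.log 2 m := ⟨_, rfl⟩
  rw [← hL] at hN
  rcases Nat.eq_zero_or_pos L with h0 | h0
  · rw [h0, Nat.div_zero, Nat.zero_add, Nat.mul_one] at hN
    have h1 : Nat.log 2 N ≤ 5 := by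
      have h2 : Nat.log 2 N < 6 := Nat.log_lt_of_lt_pow' (by norm_num) (by omega)
      omega
    calc N * Nat.log 2 N ≤ 52 * 5 := Nat.mul_le_mul hN h1
      _ ≤ 728 * (m + 1) := by omega
  · have hm0 : m ≠ 0 := by
      rintro rfl
      simp at hL
      omega
    have hmL : m < 2 ^ (L + 1) := by
      rw [hL]
      exact Nat.lt_pow_succ_log_self (by norm_num) m
    have hLm : L ≤ m := by
      rw [hL]
      exact Nat.log_le_self 2 m
    have h1 : m / L ≤ m := Nat.div_le_self m L
    have h2 : N < 2 ^ (L + 7) := by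
      have h3 : (2 : ℕ) ^ (L + 7) = 64 * 2 ^ (L + 1) := by
        rw [show L + 7 = (L + 1) + 6 by ring, pow_add]
        ring
      rw [h3]
      omega
    have h4 : Nat.log 2 N ≤ 7 * L := by
      have h5 : Nat.log 2 N < L + 7 := Nat.log_lt_of_lt_pow' (by omega) h2
      omega
    have h6 : m / L * L ≤ m := Nat.div_mul_le_self m L
    calc N * Nat.log 2 N ≤ (52 * (m / L + 1)) * (7 * L) := Nat.mul_le_mul hN h4
      _ = 364 * (m / L * L + L) := by ring
      _ ≤ 364 * (m + m) := by
        refine Nat.mul_le_mul_left _ ?_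
        omega
      _ ≤ 728 * (m + 1) := by omega

theorem AR2 : S_AR2 := ⟨728, fun F => mul_log F.length _ (Pool.Agent.H234.SCAR.bd F.length)⟩

end Pool.Agent.H612.SCAR2
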